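import Pool.Agent.H234Z.DetH

set_option autoImplicit false

namespace Pool.Agent.Results.MP_f44585_an.AllBases

/-- `y` is deterministic in base `r`: for every `ε > 0` there is a block length `k ≥ 1` such that
for all large `N` the Shannon entropy of the empirical distribution of the `k`-blocks of base-`r`
digits of `y` starting at the first `N` places after the radix point is at most `ε k`. -/
def Deterministic (r : ℕ) (y : ℝ) : Prop :=
  ∀ ε : ℝ, 0 < ε → ∃ k : ℕ, 1 ≤ k ∧ ∃ N₀ : ℕ, ∀ N : ℕ, N₀ ≤ N →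
    ∑ w : Fin k → Fin r,
      Real.negMulLog
        ((((Finset.range N).filter (fun n => ∀ i : Fin k,
            ⌊y * (r : ℝ) ^ (n + (i : ℕ) + 1)⌋ - (r : ℤ) * ⌊y * (r : ℝ) ^ (n + (i : ℕ))⌋
              = ((w i : ℕ) : ℤ))).card : ℝ) / (N : ℝ))
      ≤ ε * (k : ℝ)

/-- In every base, no irrational number multiplies deterministic numbers to deterministic ones. -/
theorem result : ∀ r : ℕ, 2 ≤ r → ∀ b : ℝ, Irrational b →
    ∃ y : ℝ, Deterministic r y ∧ ¬ Deterministic r (b * y) := by
  intro r hr b hb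
  obtain ⟨y, N, hN, h1, h2⟩ := Pool.Agent.H234Z.Det.exists_mul r hr b hb
  refine ⟨y, ?_, ?_⟩
  · intro ε hε
    simp only [Pool.Agent.H234Z.Det.digit_eq r hr]
    obtain ⟨n, hn, N0, hN0⟩ := Pool.Agent.H234Z.Det.det_of_psi r hr y h1 ε hε
    exact ⟨n, hn, N0, fun M hM => (hN0 M hM).le⟩
  · unfold Deterministic
    simp only [Pool.Agent.H234Z.Det.digit_eq r hr]
    exact Pool.Agent.H234Z.Det.not_det r hr (b * y) (Filter.map N Filter.atTop) hN h2

end Pool.Agent.Results.MP_f44585_an.AllBases
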